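import Mathlib

set_option autoImplicit false

/-!
# Independence of monomials over the field generated by generic Laurent polynomials

`ind`: let `F i = ∑ a ∈ V, c i a x^a` (`i : Fin r`). If every `q ∈ Q` has a supporting linear
functional `u` (for a function `N` on `Q`) such that the `a ∈ V` with `u a = 1` are exactly `r`
vectors `s i` with invertible coefficient matrix, and the points of `Q` on which `u = N` are
different modulo the monoid generated by the `s i`, then the products `F^β x^q` are linearly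
independent.
-/

namespace Pool.Agent.TH230.MH

open Finset

section Top

variable {K : Type*} [Field K] {k : ℕ}

/-- the part of degree `α` for the functional `u` -/
noncomputable def tp (u : (Fin k → ℤ) →+ ℝ) (α : ℝ) :
    AddMonoidAlgebra K (Fin k → ℤ) →+ AddMonoidAlgebra K (Fin k → ℤ) where
  toFun A := .ofCoeff (A.coeff.filter fun p => u p = α)
  map_zero' := by
    rw [AddMonoidAlgebra.coeff_zero, Finsupp.filter_zero, AddMonoidAlgebra.ofCoeff_zero]
  map_add' A B := by simp [Finsupp.filter_add]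

theorem tp_single (u : (Fin k → ℤ) →+ ℝ) (α : ℝ) (p : Fin k → ℤ) (x : K) :
    tp u α (AddMonoidAlgebra.single p x) = if u p = α then AddMonoidAlgebra.single p x else 0 := by
  unfold tp
  by_cases h : u p = α
  · simp [h, Finsupp.filter_single_of_pos]
  · simp [h, Finsupp.filter_single_of_neg]

theorem tp_smul (u : (Fin k → ℤ) →+ ℝ) (α : ℝ) (x : K) (A : AddMonoidAlgebra K (Fin k → ℤ)) :
    tp u α (x • A) = x • tp u α A := by
  unfold tp
  simp [Finsupp.filter_smul]

/-- all exponents have degree at most `α` -/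
def Bd (u : (Fin k → ℤ) →+ ℝ) (α : ℝ) (A : AddMonoidAlgebra K (Fin k → ℤ)) : Prop :=
  ∀ p ∈ A.coeff.support, u p ≤ α

theorem tp_eq_zero {u : (Fin k → ℤ) →+ ℝ} {α β : ℝ} {A : AddMonoidAlgebra K (Fin k → ℤ)}
    (h : Bd u α A) (hαβ : α < β) : tp u β A = 0 := by
  unfold tp
  simp only [AddMonoidHom.coe_mk, ZeroHom.coe_mk, AddMonoidAlgebra.ofCoeff_eq_zero]
  rw [Finsupp.filter_eq_zero_iff]
  intro p hp
  by_contra hne
  have := h p (Finsupp.mem_support_iff.2 hne)
  linarith

theorem Bd.mul {u : (Fin k → ℤ) →+ ℝ} {α β : ℝ} {A B : AddMonoidAlgebra K (Fin k → ℤ)}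
    (hA : Bd u α A) (hB : Bd u β B) : Bd u (α + β) (A * B) := by
  classical
  intro p hp
  have h1 := AddMonoidAlgebra.support_coeff_mul_subset A B hp
  rw [Finset.mem_add] at h1
  obtain ⟨a, ha, b, hb, rfl⟩ := h1
  rw [map_add]
  exact add_le_add (hA a ha) (hB b hb)

theorem tp_mul {u : (Fin k → ℤ) →+ ℝ} {α β : ℝ} {A B : AddMonoidAlgebra K (Fin k → ℤ)}
    (hA : Bd u α A) (hB : Bd u β B) : tp u (α + β) (A * B) = tp u α A * tp u β B := by
  classical
  have eA : tp u α A = A.coeff.sum fun m x => tp u α (AddMonoidAlgebra.single m x) := by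
    conv_lhs => rw [← AddMonoidAlgebra.sum_coeff_single A]
    exact map_finsuppSum _ _ _
  have eB : tp u β B = B.coeff.sum fun m x => tp u β (AddMonoidAlgebra.single m x) := by
    conv_lhs => rw [← AddMonoidAlgebra.sum_coeff_single B]
    exact map_finsuppSum _ _ _
  rw [AddMonoidAlgebra.mul_def, map_finsuppSum, eA, eB, Finsupp.sum_mul]
  refine Finset.sum_congr rfl fun a ha => ?_
  dsimp only
  rw [map_finsuppSum, Finsupp.mul_sum]
  refine Finset.sum_congr rfl fun b hb => ?_
  dsimp only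
  have h1 := hA a ha
  have h2 := hB b hb
  rw [tp_single, tp_single, tp_single, map_add]
  by_cases h3 : u a = α
  · by_cases h4 : u b = β
    · rw [if_pos h3, if_pos h4, if_pos (by rw [h3, h4]), AddMonoidAlgebra.single_mul_single]
    · rw [if_neg h4, mul_zero, if_neg]
      intro h5
      exact h4 (by linarith)
  · rw [if_neg h3, zero_mul, if_neg]
    intro h5
    exact h3 (by linarith)

theorem Bd.one (u : (Fin k → ℤ) →+ ℝ) : Bd u 0 (1 : AddMonoidAlgebra K (Fin k → ℤ)) := by
  intro p hp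
  rw [AddMonoidAlgebra.one_def, AddMonoidAlgebra.coeff_single] at hp
  have := Finsupp.support_single_subset hp
  rw [Finset.mem_singleton] at this
  rw [this, map_zero]

theorem tp_one (u : (Fin k → ℤ) →+ ℝ) : tp u 0 (1 : AddMonoidAlgebra K (Fin k → ℤ)) = 1 := by
  rw [AddMonoidAlgebra.one_def, tp_single, map_zero, if_pos rfl]

theorem bd_tp_pow {u : (Fin k → ℤ) →+ ℝ} {A T : AddMonoidAlgebra K (Fin k → ℤ)}
    (hA : Bd u 1 A) (hT : tp u 1 A = T) (n : ℕ) :
    Bd u n (A ^ n) ∧ tp u n (A ^ n) = T ^ n := by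
  induction n with
  | zero => simpa using ⟨Bd.one u, tp_one u⟩
  | succ n ih =>
    rw [pow_succ, pow_succ, Nat.cast_succ]
    exact ⟨ih.1.mul hA, by rw [tp_mul ih.1 hA, ih.2, hT]⟩

theorem bd_tp_prod {ι : Type*} {u : (Fin k → ℤ) →+ ℝ} (s : Finset ι)
    {A T : ι → AddMonoidAlgebra K (Fin k → ℤ)}
    (hA : ∀ i, Bd u 1 (A i)) (hT : ∀ i, tp u 1 (A i) = T i) (β : ι → ℕ) :
    Bd u (∑ i ∈ s, (β i : ℝ)) (∏ i ∈ s, A i ^ β i) ∧
      tp u (∑ i ∈ s, (β i : ℝ)) (∏ i ∈ s, A i ^ β i) = ∏ i ∈ s, T i ^ β i := by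
  classical
  induction s using Finset.induction_on with
  | empty => simpa using ⟨Bd.one u, tp_one u⟩
  | insert i s hi ih =>
    rw [Finset.sum_insert hi, Finset.prod_insert hi, Finset.prod_insert hi]
    have h1 := bd_tp_pow (hA i) (hT i) (β i)
    exact ⟨h1.1.mul ih.1, by rw [tp_mul h1.1 ih.1, h1.2, ih.2]⟩

end Top

section Lin

variable {K : Type*} [Field K] {k r : ℕ}

/-- substitution of the monomials `x^(s j)` -/
noncomputable def sub (s : Fin r → Fin k → ℤ) :
    MvPolynomial (Fin r) K →ₐ[K] AddMonoidAlgebra K (Fin k → ℤ) :=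
  MvPolynomial.aeval fun j => AddMonoidAlgebra.single (s j) (1 : K)

theorem sub_monomial (s : Fin r → Fin k → ℤ) (m : Fin r →₀ ℕ) (x : K) :
    sub s (MvPolynomial.monomial m x) = AddMonoidAlgebra.single (∑ j, m j • s j) x := by
  classical
  unfold sub
  rw [MvPolynomial.aeval_monomial, Finsupp.prod_fintype _ _ (fun i => pow_zero _)]
  have h1 : ∀ t : Finset (Fin r), ∏ j ∈ t, (AddMonoidAlgebra.single (s j) (1 : K)) ^ m j
      = AddMonoidAlgebra.single (∑ j ∈ t, m j • s j) (1 : K) := by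
    intro t
    induction t using Finset.induction_on with
    | empty => simp [AddMonoidAlgebra.one_def]
    | insert i t hi ih =>
      rw [Finset.prod_insert hi, Finset.sum_insert hi, ih, AddMonoidAlgebra.single_pow,
        AddMonoidAlgebra.single_mul_single]
      simp
  rw [h1, ← Algebra.smul_def, AddMonoidAlgebra.smul_single, smul_eq_mul, mul_one]

theorem sub_coeff (s : Fin r → Fin k → ℤ) (T : Finset (Fin k → ℤ))
    (P : (Fin k → ℤ) → MvPolynomial (Fin r) K)
    (hT : ∀ q1 ∈ T, ∀ q2 ∈ T, ∀ m1 m2 : Fin r → ℕ,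
      q1 + ∑ i, m1 i • s i = q2 + ∑ i, m2 i • s i → q1 = q2 ∧ m1 = m2)
    (h0 : ∑ q ∈ T, sub s (P q) * AddMonoidAlgebra.single q (1 : K) = 0) :
    ∀ q ∈ T, P q = 0 := by
  classical
  intro q0 hq0
  ext m0
  rw [MvPolynomial.coeff_zero]
  have h1 := congrArg (fun A => A.coeff (q0 + ∑ i, m0 i • s i)) h0
  simp only [AddMonoidAlgebra.coeff_sum, AddMonoidAlgebra.coeff_zero, Finsupp.coe_zero,
    Pi.zero_apply, Finsupp.finsetSum_apply] at h1
  have h2 : ∀ q ∈ T, (sub s (P q) * AddMonoidAlgebra.single q (1 : K)).coeff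
      (q0 + ∑ i, m0 i • s i) = if q = q0 then (P q0).coeff m0 else 0 := by
    intro q hq
    have h3 : sub s (P q) * AddMonoidAlgebra.single q (1 : K)
        = ∑ m ∈ (P q).support, AddMonoidAlgebra.single (q + ∑ i, m i • s i) ((P q).coeff m) := by
      conv_lhs => rw [MvPolynomial.as_sum (P q)]
      rw [map_sum, Finset.sum_mul]
      refine Finset.sum_congr rfl fun m _ => ?_
      rw [sub_monomial, AddMonoidAlgebra.single_mul_single, mul_one, add_comm]
    rw [h3, AddMonoidAlgebra.coeff_sum, Finsupp.finsetSum_apply]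
    by_cases hqq : q = q0
    · subst hqq
      rw [if_pos rfl]
      rw [Finset.sum_eq_single m0]
      · rw [AddMonoidAlgebra.coeff_single, Finsupp.single_eq_same]
      · intro m _ hm
        rw [AddMonoidAlgebra.coeff_single, Finsupp.single_apply, if_neg]
        intro h4
        exact hm (DFunLike.coe_injective (hT q hq q hq m m0 h4).2)
      · intro hm
        rw [AddMonoidAlgebra.coeff_single, Finsupp.single_eq_same]
        exact MvPolynomial.notMem_support_iff.1 hm
    · rw [if_neg hqq]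
      refine Finset.sum_eq_zero fun m _ => ?_
      rw [AddMonoidAlgebra.coeff_single, Finsupp.single_apply, if_neg]
      intro h4
      exact hqq (hT q hq q0 hq0 m m0 h4).1
  rw [Finset.sum_congr rfl h2, Finset.sum_ite_eq' T q0, if_pos hq0] at h1
  exact h1

/-- linear change of variables -/
noncomputable def lin (M : Matrix (Fin r) (Fin r) K) :
    MvPolynomial (Fin r) K →ₐ[K] MvPolynomial (Fin r) K :=
  MvPolynomial.aeval fun i => ∑ j, MvPolynomial.C (M i j) * MvPolynomial.X j

theorem lin_injective (M : Matrix (Fin r) (Fin r) K) (hM : M.det ≠ 0) :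
    Function.Injective (lin M) := by
  have h1 : (lin M⁻¹).comp (lin M) = AlgHom.id K _ := by
    refine MvPolynomial.algHom_ext fun i => ?_
    have hMi : M * M⁻¹ = 1 := Matrix.mul_nonsing_inv M (isUnit_iff_ne_zero.2 hM)
    simp only [lin, AlgHom.comp_apply, MvPolynomial.aeval_X, map_sum, map_mul,
      MvPolynomial.algHom_C, MvPolynomial.algebraMap_eq, AlgHom.id_apply]
    simp_rw [Finset.mul_sum]
    rw [Finset.sum_comm]
    have : ∀ l, ∑ j, MvPolynomial.C (M i j) * (MvPolynomial.C (M⁻¹ j l) * MvPolynomial.X l)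
        = MvPolynomial.C ((M * M⁻¹) i l) * (MvPolynomial.X l : MvPolynomial (Fin r) K) := by
      intro l
      rw [Matrix.mul_apply, map_sum, Finset.sum_mul]
      refine Finset.sum_congr rfl fun j _ => ?_
      rw [map_mul, mul_assoc]
    rw [Finset.sum_congr rfl fun l _ => this l, hMi]
    rw [Finset.sum_eq_single i]
    · simp
    · intro l _ hl
      rw [Matrix.one_apply_ne (Ne.symm hl)]
      simp
    · simp
  intro a b hab
  have := congrArg (lin M⁻¹) hab
  have e : ∀ x, lin M⁻¹ (lin M x) = x := fun x => by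
    have := DFunLike.congr_fun h1 x
    simpa using this
  rwa [e, e] at this

end Lin

section Main

variable {K : Type*} [Field K] {k r : ℕ}

/-- the generic element with coefficients `c` -/
noncomputable def gen (V : Finset (Fin k → ℤ)) (c : (Fin k → ℤ) → K) :
    AddMonoidAlgebra K (Fin k → ℤ) := ∑ a ∈ V, AddMonoidAlgebra.single a (c a)

theorem ind (V : Finset (Fin k → ℤ)) (c : Fin r → (Fin k → ℤ) → K) (N : (Fin k → ℤ) → ℝ)
    (Q : Set (Fin k → ℤ))
    (H : ∀ q ∈ Q, ∃ (u : (Fin k → ℤ) →+ ℝ) (s : Fin r → (Fin k → ℤ)),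
      (∀ p ∈ Q, u p ≤ N p) ∧ u q = N q ∧ (∀ a ∈ V, u a ≤ 1) ∧ (∀ i, s i ∈ V) ∧
      (∀ a ∈ V, u a = 1 → ∃ i, s i = a) ∧ (∀ i, u (s i) = 1) ∧ Function.Injective s ∧
      (Matrix.of fun i j => c i (s j)).det ≠ 0 ∧
      (∀ q1 ∈ Q, ∀ q2 ∈ Q, u q1 = N q1 → u q2 = N q2 → ∀ m1 m2 : Fin r → ℕ,
        q1 + ∑ i, m1 i • s i = q2 + ∑ i, m2 i • s i → q1 = q2 ∧ m1 = m2)) :
    LinearIndependent K (fun x : (Fin r → ℕ) × Q =>
      (∏ i, (∑ a ∈ V, AddMonoidAlgebra.single a (c i a)) ^ (x.1 i)) *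
        AddMonoidAlgebra.single (x.2 : Fin k → ℤ) (1 : K)) := by
  classical
  rw [linearIndependent_iff']
  intro t g hg x hx
  by_contra hgx
  -- the nonzero terms
  obtain ⟨x0, hx0, hmax⟩ := Finset.exists_max_image (t.filter fun x => g x ≠ 0)
    (fun x => (∑ i, (x.1 i : ℝ)) + N x.2) ⟨x, Finset.mem_filter.2 ⟨hx, hgx⟩⟩
  rw [Finset.mem_filter] at hx0
  obtain ⟨u, s, hu1, hu2, hV, hs, hVs, hs1, hsi, hdet, hdist⟩ := H x0.2 x0.2.2
  set δ : ℝ := (∑ i, (x0.1 i : ℝ)) + N x0.2 with hδ
  set M : Matrix (Fin r) (Fin r) K := Matrix.of fun i j => c i (s j) with hM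
  set Th : Fin r → AddMonoidAlgebra K (Fin k → ℤ) :=
    fun i => ∑ j, AddMonoidAlgebra.single (s j) (c i (s j)) with hTh
  have hbd : ∀ i, Bd u 1 (∑ a ∈ V, AddMonoidAlgebra.single a (c i a)) := by
    intro i p hp
    rw [AddMonoidAlgebra.coeff_sum] at hp
    obtain ⟨a, ha, hpa⟩ := Finset.mem_biUnion.1 (Finsupp.support_finsetSum hp)
    rw [AddMonoidAlgebra.coeff_single] at hpa
    have := Finset.mem_singleton.1 (Finsupp.support_single_subset hpa)
    rw [this]
    exact hV a ha
  have htp : ∀ i, tp u 1 (∑ a ∈ V, AddMonoidAlgebra.single a (c i a)) = Th i := by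
    intro i
    rw [map_sum, Finset.sum_congr rfl fun a _ => tp_single u 1 a (c i a), ← Finset.sum_filter]
    have : V.filter (fun a => u a = 1) = Finset.univ.map ⟨s, hsi⟩ := by
      ext a
      simp only [Finset.mem_filter, Finset.mem_map, Finset.mem_univ, true_and,
        Function.Embedding.coeFn_mk]
      constructor
      · rintro ⟨h1, h2⟩
        exact hVs a h1 h2
      · rintro ⟨i, rfl⟩
        exact ⟨hs i, hs1 i⟩
    rw [this, Finset.sum_map]
    rfl
  have hprod := fun β : Fin r → ℕ => bd_tp_prod Finset.univ hbd htp β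
  -- top part of a term
  have hterm : ∀ y ∈ t, tp u δ (g y • ((∏ i, (∑ a ∈ V, AddMonoidAlgebra.single a (c i a)) ^ (y.1 i))
      * AddMonoidAlgebra.single (y.2 : Fin k → ℤ) (1 : K)))
      = if u y.2 = N y.2 ∧ (∑ i, (y.1 i : ℝ)) + N y.2 = δ then
        g y • ((∏ i, Th i ^ (y.1 i)) * AddMonoidAlgebra.single (y.2 : Fin k → ℤ) (1 : K)) else 0 := by
    intro y hy
    rw [tp_smul]
    by_cases hgy : g y = 0
    · rw [hgy]; simp
    have hle : (∑ i, (y.1 i : ℝ)) + N y.2 ≤ δ := hmax y (Finset.mem_filter.2 ⟨hy, hgy⟩)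
    have hbs : Bd u (u (y.2 : Fin k → ℤ)) (AddMonoidAlgebra.single (y.2 : Fin k → ℤ) (1 : K)) := by
      intro p hp
      rw [AddMonoidAlgebra.coeff_single] at hp
      rw [Finset.mem_singleton.1 (Finsupp.support_single_subset hp)]
    have hb := (hprod y.1).1.mul hbs
    have hule := hu1 _ y.2.2
    by_cases hc : u y.2 = N y.2 ∧ (∑ i, (y.1 i : ℝ)) + N y.2 = δ
    · rw [if_pos hc]
      have h5 : δ = (∑ i, (y.1 i : ℝ)) + u y.2 := by rw [hc.1]; exact hc.2.symm
      rw [h5, tp_mul (hprod y.1).1 hbs, (hprod y.1).2, tp_single, if_pos rfl]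
    · rw [if_neg hc]
      rw [tp_eq_zero hb, smul_zero]
      by_contra h6
      rw [not_lt] at h6
      exact hc ⟨by linarith, by linarith⟩
  have hsum : ∑ y ∈ t.filter (fun y => u y.2 = N y.2 ∧ (∑ i, (y.1 i : ℝ)) + N y.2 = δ),
      g y • ((∏ i, Th i ^ (y.1 i)) * AddMonoidAlgebra.single (y.2 : Fin k → ℤ) (1 : K)) = 0 := by
    rw [Finset.sum_filter, ← Finset.sum_congr rfl hterm, ← map_sum, hg, map_zero]
  set t' := t.filter (fun y => u y.2 = N y.2 ∧ (∑ i, (y.1 i : ℝ)) + N y.2 = δ) with ht'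
  -- the polynomials
  have hThs : ∀ i, Th i = sub s (lin M (MvPolynomial.X i)) := by
    intro i
    simp only [lin, MvPolynomial.aeval_X, map_sum, map_mul, hTh]
    refine Finset.sum_congr rfl fun j _ => ?_
    rw [MvPolynomial.algHom_C, ← Algebra.smul_def]
    simp only [sub, MvPolynomial.aeval_X]
    rw [AddMonoidAlgebra.smul_single, smul_eq_mul, mul_one]
    rfl
  set W : Finset (Fin k → ℤ) := t'.image fun y => (y.2 : Fin k → ℤ) with hW
  set P : (Fin k → ℤ) → MvPolynomial (Fin r) K := fun q =>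
    ∑ y ∈ t'.filter (fun y => (y.2 : Fin k → ℤ) = q), g y • ∏ i, MvPolynomial.X i ^ (y.1 i) with hP
  have h7 : ∑ q ∈ W, sub s (lin M (P q)) * AddMonoidAlgebra.single q (1 : K) = 0 := by
    rw [← hsum, ← Finset.sum_fiberwise_of_maps_to (s := t') (t := W)
      (g := fun y => (y.2 : Fin k → ℤ)) (fun y hy => Finset.mem_image_of_mem _ hy)]
    refine Finset.sum_congr rfl fun q _ => ?_
    simp only [hP]
    rw [map_sum, map_sum, Finset.sum_mul]
    refine Finset.sum_congr rfl fun y hy => ?_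
    have hyq := (Finset.mem_filter.1 hy).2
    rw [map_smul, map_smul, map_prod, map_prod, smul_mul_assoc, hyq]
    congr 3
    funext i
    rw [map_pow, map_pow, ← hThs]
  have h8 := sub_coeff s W (fun q => lin M (P q)) (by
    intro q1 hq1 q2 hq2 m1 m2 h9
    obtain ⟨y1, hy1, rfl⟩ := Finset.mem_image.1 hq1
    obtain ⟨y2, hy2, rfl⟩ := Finset.mem_image.1 hq2
    exact hdist _ y1.2.2 _ y2.2.2 (Finset.mem_filter.1 hy1).2.1 (Finset.mem_filter.1 hy2).2.1
      m1 m2 h9) h7
  have hx0t : x0 ∈ t' := Finset.mem_filter.2 ⟨hx0.1, hu2, rfl⟩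
  have h10 := h8 x0.2 (Finset.mem_image_of_mem _ hx0t)
  have h11 : P x0.2 = 0 := lin_injective M hdet (by rw [h10, map_zero])
  have h12 := congrArg (MvPolynomial.coeff (Finsupp.equivFunOnFinite.symm x0.1)) h11
  rw [MvPolynomial.coeff_zero] at h12
  simp only [hP] at h12
  rw [MvPolynomial.coeff_sum, Finset.sum_eq_single x0] at h12
  · apply hx0.2
    rw [MvPolynomial.coeff_smul] at h12
    have h13 : (∏ i, (MvPolynomial.X i : MvPolynomial (Fin r) K) ^ (x0.1 i))
        = MvPolynomial.monomial (Finsupp.equivFunOnFinite.symm x0.1) 1 := by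
      rw [MvPolynomial.monomial_eq, map_one, one_mul, Finsupp.prod_fintype _ _ (fun i => pow_zero _)]
      rfl
    rw [h13, MvPolynomial.coeff_monomial, if_pos rfl, smul_eq_mul, mul_one] at h12
    exact h12
  · intro y hy hne
    have hy2 := (Finset.mem_filter.1 hy).2
    have h13 : (∏ i, (MvPolynomial.X i : MvPolynomial (Fin r) K) ^ (y.1 i))
        = MvPolynomial.monomial (Finsupp.equivFunOnFinite.symm y.1) 1 := by
      rw [MvPolynomial.monomial_eq, map_one, one_mul, Finsupp.prod_fintype _ _ (fun i => pow_zero _)]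
      rfl
    rw [MvPolynomial.coeff_smul, h13, MvPolynomial.coeff_monomial, if_neg, smul_zero]
    intro h14
    apply hne
    refine Prod.ext ?_ (Subtype.ext hy2)
    exact Finsupp.equivFunOnFinite.symm.injective h14
  · intro hn
    exfalso
    apply hn
    rw [Finset.mem_filter]
    exact ⟨hx0t, rfl⟩

end Main

end Pool.Agent.TH230.MH
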